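import Pool.Agent.J6H9.EV.Stm
import Pool.Agent.J6H46.EU.Den

/-!
# Project EV: the main argument
-/

set_option autoImplicit false

namespace Pool.Agent.J6H9.EV

open Filter Topology Pool.Agent.J6H9.EU Pool.Agent.J6H46.EU

variable {f : ℕ → ℝ}

lemma F_succ (n : ℕ) : F f (n + 1) = F f n + f n := Finset.sum_range_succ _ _

lemma F_nonneg (hf : ∀ n, 0 < f n) (n : ℕ) : 0 ≤ F f n := Finset.sum_nonneg fun i _ => (hf i).le

lemma F_pos (hf : ∀ n, 0 < f n) (n : ℕ) : 0 < F f (n + 1) := by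
  rw [F_succ]
  linarith [F_nonneg hf n, hf n]

lemma F_ge (hm : Monotone f) (n : ℕ) : n * f 0 ≤ F f n := by
  unfold F
  calc (n : ℝ) * f 0 = ∑ _i ∈ Finset.range n, f 0 := by simp
    _ ≤ _ := Finset.sum_le_sum fun i _ => hm (Nat.zero_le i)

lemma F_tendsto (hf : ∀ n, 0 < f n) (hm : Monotone f) : Tendsto (F f) atTop atTop :=
  tendsto_atTop_mono (F_ge hm) (tendsto_natCast_atTop_atTop.atTop_mul_const (hf 0))

lemma F_le (hm : Monotone f) (n : ℕ) : F f (n + 1) ≤ (n + 1) * f n := by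
  unfold F
  calc ∑ i ∈ Finset.range (n + 1), f i ≤ ∑ _i ∈ Finset.range (n + 1), f n :=
        Finset.sum_le_sum fun i hi => hm (by rw [Finset.mem_range] at hi; omega)
    _ = _ := by simp

lemma mainA (hf : ∀ n, 0 < f n) (hh : Antitone (fun n => f n / F f (n + 1))) {d : ℕ → ℕ} (had : Adapted f d)
    {K : ℕ} (hc : ∀ n, st d (n + 1) ≤ 2 * K * d n) (x : ℕ) : (x : ℝ) * f x ≤ (4 * K) * F f (x + 1) := by
  set n := idx d x with hn
  have h1 : st d n ≤ x := idx_le x
  have h2 : x < st d (n + 1) := lt_idx had.pos x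
  have h3 : (x : ℝ) ≤ 2 * K * d n := by exact_mod_cast (h2.le.trans (hc n))
  have h4 := had.small n
  have h5 : f x / F f (x + 1) ≤ f (st d n) / F f (st d n + 1) := hh h1
  rw [div_le_div_iff₀ (F_pos hf _) (F_pos hf _)] at h5
  have h6 := F_pos hf (st d n)
  have h7 := F_pos hf x
  have h8 : (x : ℝ) * (f x * F f (st d n + 1)) ≤ (4 * K) * F f (x + 1) * F f (st d n + 1) := by
    calc (x : ℝ) * (f x * F f (st d n + 1)) ≤ x * (f (st d n) * F f (x + 1)) := by gcongr
      _ ≤ (2 * K * d n) * (f (st d n) * F f (x + 1)) := by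
          have := hf (st d n)
          gcongr
      _ = 2 * K * F f (x + 1) * (d n * f (st d n)) := by ring
      _ ≤ 2 * K * F f (x + 1) * (2 * F f (st d n + 1)) := by gcongr
      _ = _ := by ring
  have h9 : ((x : ℝ) * f x) * F f (st d n + 1) ≤ ((4 * K) * F f (x + 1)) * F f (st d n + 1) := by
    linarith
  exact le_of_mul_le_mul_right h9 h6

lemma sub_one (hf : ∀ n, 0 < f n) (hm : Monotone f) {C : ℝ} (hC : ∀ n : ℕ, (n : ℝ) * f n ≤ C * F f (n + 1)) :
    EU (fun _ => 1) ⊆ EU f := by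
  classical
  intro A hA
  have hA' : Tendsto (fun n : ℕ => (∑ i ∈ (Finset.range n).filter (· ∈ A), (1 : ℝ)) / ∑ i ∈ Finset.range n, (1 : ℝ))
      atTop (𝓝 0) := hA
  have h1 := hA'.const_mul (2 * C)
  rw [mul_zero] at h1
  refine squeeze_zero' (Eventually.of_forall fun n => ?_) ?_ h1
  · exact div_nonneg (Finset.sum_nonneg fun i _ => (hf i).le) (Finset.sum_nonneg fun i _ => (hf i).le)
  · filter_upwards [eventually_ge_atTop 2] with n hn
    obtain ⟨k, rfl⟩ : ∃ k, n = k + 1 := ⟨n - 1, by omega⟩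
    have h2 : ∑ i ∈ (Finset.range (k + 1)).filter (· ∈ A), f i ≤
        (∑ i ∈ (Finset.range (k + 1)).filter (· ∈ A), (1 : ℝ)) * f k := by
      rw [Finset.sum_mul]
      refine Finset.sum_le_sum fun i hi => ?_
      rw [Finset.mem_filter, Finset.mem_range] at hi
      rw [one_mul]
      exact hm (by omega)
    have h3 : ∑ i ∈ Finset.range (k + 1), (1 : ℝ) = k + 1 := by simp
    have h4 : ∑ i ∈ Finset.range (k + 1), f i = F f (k + 1) := rfl
    have h5 := F_pos hf k
    have h6 : (1 : ℝ) ≤ k := by exact_mod_cast (by omega : 1 ≤ k)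
    have h7 := hC k
    have h8 := hf k
    have h9 : (k + 1 : ℝ) * f k ≤ 2 * C * F f (k + 1) := by nlinarith
    set S := ∑ i ∈ (Finset.range (k + 1)).filter (· ∈ A), (1 : ℝ) with hS
    have hS0 : 0 ≤ S := Finset.sum_nonneg fun _ _ => zero_le_one
    rw [h3, h4, div_le_iff₀ h5]
    calc _ ≤ S * f k := h2
      _ = S / (k + 1) * ((k + 1) * f k) := by field_simp
      _ ≤ S / (k + 1) * (2 * C * F f (k + 1)) := by gcongr
      _ = _ := by ring

lemma u_sub_one (h2 : S_SUB2) (hf : ∀ n, 0 < f n) (hm : Monotone f) {d : ℕ → ℕ} (had : Adapted f d) :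
    U d ⊆ EU (fun _ => 1) := by
  refine h2 (fun _ => 1) d (fun _ => one_pos) had.pos (F_tendsto (fun _ => one_pos) monotone_const)
    (fun _ _ _ => le_rfl) (fun _ _ _ => by norm_num) fun n => ?_
  have h3 := had.small n
  have h4 := F_le hm (st d n)
  have h5 := hf (st d n)
  have h6 : F (fun _ => (1 : ℝ)) (st d n + 1) = st d n + 1 := by simp [F]
  rw [h6]
  have h7 : ((d n : ℝ) * 1) * f (st d n) ≤ (2 * ((st d n : ℝ) + 1)) * f (st d n) := by linarith
  exact le_of_mul_le_mul_right h7 h5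

end Pool.Agent.J6H9.EV
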