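import Pool.Agent.J6H9.EU.Stm

/-!
# Project EV (MP_f6e960_lc, second theorem): regular weights

`F n = ∑_{i < n} f i`. THEOREM: for `f > 0` nondecreasing with `f n / F (n + 1)` nonincreasing and tending to `0`, the
following are equivalent: `EU f` has an increasing-invariant isomorphic copy; `n f n = O(F (n + 1))`; `EU f` is the ideal
of the sets of density zero. (And for `f` nonincreasing `EU f` is increasing-invariant.)
-/

set_option autoImplicit false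

namespace Pool.Agent.J6H9.EV

open Filter Topology Pool.Agent.J6H9.EU

/-- partial sums -/
noncomputable def F (f : ℕ → ℝ) (n : ℕ) : ℝ := ∑ i ∈ Finset.range n, f i

/-- block lengths adapted to `f` -/
structure Adapted (f : ℕ → ℝ) (d : ℕ → ℕ) : Prop where
  pos : ∀ n, 0 < d n
  mono : Monotone d
  lim : Tendsto d atTop atTop
  lower : ∀ n, ∀ x ∈ D d n, f (st d n) ≤ f x
  upper : ∀ n, ∀ x ∈ D d n, f x ≤ 2 * f (st d n)
  big : ∀ n, F f (st d n + 1) ≤ 2 * (d n * f (st d n))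
  small : ∀ n, d n * f (st d n) ≤ 2 * F f (st d n + 1)

/-- **EV-REC** (100 lines). PROOF. `h n = F (n + 1) / f n` is monotone, `1 ≤ h n ≤ n + 1`, tends to infinity. Let
`a (k + 1) = a k + d k`, `a 0 = 0`, `d k = ⌊h (a k) / 2⌋₊ + 1` (recursion for `a`; then `st d k = a k`). So
`h (a k) / 2 ≤ d k ≤ h (a k) / 2 + 1 ≤ 3 / 2 * h (a k)`, which is `big` and `small`. `upper`: for `x = a k + j`,
`j < d k`, so `j ≤ h (a k) / 2`, we have `h (a k) ≤ h x`, so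
`h (a k) * f x ≤ F (x + 1) ≤ F (a k + 1) + j * f x = h (a k) * f (a k) + j * f x`, and `f x ≤ 2 f (a k)`. -/
def S_REC : Prop := ∀ f : ℕ → ℝ, (∀ n, 0 < f n) → Monotone f → Antitone (fun n => f n / F f (n + 1)) →
  Tendsto (fun n => f n / F f (n + 1)) atTop (𝓝 0) → ∃ d : ℕ → ℕ, Adapted f d

/-- **EV-SUB1** (50 lines). PROOF. `|A ∩ D_n| * f (st n) ≤ ∑_{A ∩ [0, st (n + 1))} f`, and
`F (st (n + 1)) ≤ F (st n + 1) + 2 * d n * f (st n) ≤ 4 * d n * f (st n)`. So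
`|A ∩ D_n| / d n ≤ 4 * (∑_{A ∩ [0, st (n + 1))} f) / F (st (n + 1))`. -/
def S_SUB1 : Prop := ∀ (f : ℕ → ℝ) (d : ℕ → ℕ), (∀ n, 0 < f n) → (∀ n, 0 < d n) →
  (∀ n, ∀ x ∈ D d n, f (st d n) ≤ f x) → (∀ n, ∀ x ∈ D d n, f x ≤ 2 * f (st d n)) →
  (∀ n, F f (st d n + 1) ≤ 2 * (d n * f (st d n))) → EU f ⊆ U d

/-- **EV-SUB2** (100 lines). PROOF. Let `r i = |A ∩ D_i| / d i → 0`. For `st k < N ≤ st (k + 1)`:
`∑_{A ∩ [0, N)} f ≤ 2 * ∑_{i ≤ k} r i * (d i * f (st i))`, with `∑_{i < k} d i * f (st i) ≤ F (st k) ≤ F N` and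
`d k * f (st k) ≤ 2 * F (st k + 1) ≤ 2 * F N`. If `r i ≤ ε` for `i ≥ i0` this is at most
`const(i0) + 6 * ε * F N`, and `F N → ∞`. -/
def S_SUB2 : Prop := ∀ (f : ℕ → ℝ) (d : ℕ → ℕ), (∀ n, 0 < f n) → (∀ n, 0 < d n) → Tendsto (F f) atTop atTop →
  (∀ n, ∀ x ∈ D d n, f (st d n) ≤ f x) → (∀ n, ∀ x ∈ D d n, f x ≤ 2 * f (st d n)) →
  (∀ n, d n * f (st d n) ≤ 2 * F f (st d n + 1)) → U d ⊆ EU f

/-- **EV-CNT** (50 lines). PROOF. By strong induction on `v`: the sum of the `d i` over the (finitely many) `i` with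
`d i ≤ v` is at most `2 * K * v`: those with `d i ≤ v / 2` give at most `2 * K * (v / 2)`, and at most `K` of them are
in `[s, 2 s)`, `s = v / 2 + 1`. Then take `v = d n`. -/
def S_CNT : Prop := ∀ (d : ℕ → ℕ) (K : ℕ), (∀ n, 0 < d n) → Monotone d → Tendsto d atTop atTop →
  (∀ s : ℕ, {n | s ≤ d n ∧ d n < 2 * s}.ncard ≤ K) → ∀ n, st d (n + 1) ≤ 2 * K * d n

/-- **EV-ANT** (60 lines). PROOF. Abel summation: if `|C ∩ n| ≤ |B ∩ n|` for all `n` then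
`∑_{C ∩ n} f ≤ ∑_{B ∩ n} f` for all `n` (`∑_{C ∩ n} f = ∑_{i < n} (f i - f (i + 1)) |C ∩ (i + 1)| + f n |C ∩ n|`; or by
induction on `n` prove the stronger inequality
`∑_{C ∩ n} f + f n * (|B ∩ n| - |C ∩ n|) ≤ ∑_{B ∩ n} f`). -/
def S_ANT : Prop := ∀ f : ℕ → ℝ, (∀ n, 0 ≤ f n) → Antitone f → IncInv (EU f)

end Pool.Agent.J6H9.EV
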